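import Pool.Agent.H8.Pp7

namespace Pool.Agent.Results.MP_95815e_co.PopSimple

open H8.Pp

theorem result : ∀ n : ℕ, 3 ≤ n →
    a n = if Odd n then Nat.fib (2 * n - 5) - 1 else Nat.fib (2 * n - 5) :=
  fun n hn => main n hn

end Pool.Agent.Results.MP_95815e_co.PopSimple
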